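import Pool.Agent.H61.KW.TB

open Topology Set
open Pool.Agent.H59 Pool.Agent.H64.LB Pool.Agent.H61.KU Pool.Agent.H61.KV Pool.Agent.H61.KW
open scoped unitInterval

namespace Pool.Agent.H93.KW.COE

theorem pf_COE (hP1X : T_P1X) (hNUH : T_NUH) (hLFM : T_LFM) (hSPH : T_SPH) : T_COE := by
  intro V _ _ _ m K q x hq hx hx0
  by_contra hcon
  push Not at hcon
  have hC := K.cc
  obtain ⟨e, he⟩ := hC.pos
  obtain ⟨p, j, α, -, -, -, -, -, -, -, -, -, -, hbd, -, hinj⟩ := hP1X V m K.cfg q e hq he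
  have hqC := K.mem q hq
  have hxC := K.mhC hx
  have hmc := K.cfg.cont
  let φ : I × Sph 2 → V := fun z => (1 - (z.1 : ℝ)) • m (α z.2) + (z.1 : ℝ) • x
  have hφc : Continuous φ := by
    have h1 : Continuous fun z : I × Sph 2 => m (α z.2) :=
      hmc.comp (α.continuous.comp continuous_snd)
    have h2 : Continuous fun z : I × Sph 2 => (z.1 : ℝ) :=
      continuous_subtype_val.comp continuous_fst
    exact ((continuous_const.sub h2).smul h1).add (h2.smul continuous_const)
  have hmem : ∀ z, φ z ∈ Mh m ∧ φ z ≠ 0 := by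
    rintro ⟨⟨r, hr0, hr1⟩, u⟩
    have hb := hbd u
    have hm0 := hb.2.1
    have hmC : m (α u) ∈ Cn m := mem_C hb.1
    have hm : m (α u) ∈ Mh m := ⟨1, α u, zero_le_one, (one_smul _ _).symm⟩
    change (1 - r) • m (α u) + r • x ∈ Mh m ∧ (1 - r) • m (α u) + r • x ≠ 0
    have he1 := he _ hmC hm0
    have he2 := he _ hxC hx0
    constructor
    · rcases hr0.eq_or_lt with h1 | h1
      · rw [← h1, zero_smul, add_zero, sub_zero, one_smul]
        exact hm
      · rcases hr1.eq_or_lt with h2 | h2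
        · rw [h2, sub_self, zero_smul, one_smul, zero_add]
          exact hx
        · have h3 := hcon _ (bd_smul hC hqC hb (c := (1 - r) / r)
            (div_pos (by linarith) h1))
          have h4 := K.smul r hr0 _ h3
          rw [smul_add, smul_smul, mul_div_cancel₀ _ h1.ne', add_comm] at h4
          exact h4
    · intro h1
      have h2 : e ((1 - r) • m (α u) + r • x) = 0 := by rw [h1, map_zero]
      rw [map_add, map_smul, map_smul, smul_eq_mul, smul_eq_mul] at h2
      rcases hr0.eq_or_lt with h3 | h3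
      · rw [← h3] at h2
        linarith
      · have h4 : 0 < r * e x := mul_pos h3 he2
        have h5 : 0 ≤ (1 - r) * e (m (α u)) := mul_nonneg (by linarith) he1.le
        linarith
  obtain ⟨ψ, hψ⟩ := hLFM V m K.cfg (I × Sph 2) φ hφc hmem
  obtain ⟨d, y, hd, hxy⟩ := hx
  have hd' : 0 < d := by
    rcases hd.eq_or_lt with h1 | h1
    · exact absurd (by rw [hxy, ← h1, zero_smul]) hx0
    · exact h1
  have hH0 : ∀ s, ψ (0, s) = α s := by
    intro s
    obtain ⟨c, hc, h1⟩ := hψ (0, s)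
    have h2 : φ (0, s) = m (α s) := by simp [φ]
    rw [h2] at h1
    exact K.cfg.inj _ _ c hc h1
  have hH1 : ∀ s, ψ (1, s) = y := by
    intro s
    obtain ⟨c, hc, h1⟩ := hψ (1, s)
    have h2 : φ (1, s) = x := by simp [φ]
    rw [h2, hxy] at h1
    refine K.cfg.inj _ _ (d⁻¹ * c) (mul_pos (inv_pos.2 hd') hc) ?_
    rw [← smul_smul, ← h1, smul_smul, inv_mul_cancel₀ hd'.ne', one_smul]
  have hz := hNUH (Sph 2) (PN 2) α ψ y hH0 hH1
  have := hSPH.1 2
  obtain ⟨z, hz0⟩ := exists_ne (0 : HH (ZMod 2) 2 (Sph 2))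
  apply hz0
  apply hinj
  rw [hz z, map_zero]

end Pool.Agent.H93.KW.COE
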