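import Pool.Agent.H61.KW.TB

open Topology Set
open Pool.Agent.H59 Pool.Agent.H64.LB Pool.Agent.H61.KV Pool.Agent.H61.KW

namespace Pool.Agent.H93.KW.F5A

/-- the span of the face of an extreme vector -/
theorem sp_ex {V : Type} [NormedAddCommGroup V] [NormedSpace ℝ V] {C : Set V} {y v : V}
    (hy : Ex C y) (hv : v ∈ Sp C y) : ∃ c : ℝ, v = c • y := by
  have h1 : Sp C y ≤ Submodule.span ℝ {y} := by
    refine Submodule.span_le.2 ?_
    intro r hr
    obtain ⟨c, rfl⟩ := hy.2.2 r hr
    exact Submodule.smul_mem _ _ (Submodule.mem_span_singleton_self y)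
  obtain ⟨c, hc⟩ := Submodule.mem_span_singleton.1 (h1 hv)
  exact ⟨c, hc.symm⟩

/-- a footed face and one more extreme ray: the face is a direct sum if the rank increases by 1 -/
theorem dsum_ex {V : Type} [NormedAddCommGroup V] [NormedSpace ℝ V] [FiniteDimensional ℝ V]
    {C : Set V} {q y : V} (hC : IsCC C) (hqf : Ftd C q) (hy : Ex C y) (hyq : y ∉ Fc C q)
    (hr : rk C (q + y) ≤ rk C q + 1) : Dsum C q y := by
  have hqC := hqf.1
  have hyC := hy.1
  have hsC : q + y ∈ C := hC.add q hqC y hyC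
  have hysp : y ∉ Sp C q := fun h => hyq (of_sp hC hqC hyC h)
  refine ⟨hqC, hyC, ?_, ?_⟩
  · intro v hv hv'
    obtain ⟨c, rfl⟩ := sp_ex hy hv'
    by_cases hc : c = 0
    · rw [hc, zero_smul]
    · exfalso
      apply hysp
      have h1 := Submodule.smul_mem _ c⁻¹ hv
      rwa [smul_smul, inv_mul_cancel₀ hc, one_smul] at h1
  · intro r hrF
    obtain ⟨g, hg⟩ := hqf.2 r (mem_C hrF)
    have ht := foot_dec hC hqC (mem_C hrF) hg
    have hgC := foot_memC hC hqC hg
    have hgg := foot_self hC hqC hg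
    have hgF : g ∈ Fc C (q + y) := by
      refine (face hC hsC hgC (mem_C ht) ?_).1
      rwa [add_sub_cancel]
    have hsup : Sp C q ⊔ Submodule.span ℝ {y} = Sp C (q + y) := by
      apply Submodule.eq_of_le_of_finrank_le
      · refine sup_le (sp_mono hC hsC (left_fc hC hqC hyC)) ?_
        rw [Submodule.span_singleton_le_iff_mem]
        exact mem_sp (right_fc hC hqC hyC)
      · have h1 : Sp C q < Sp C q ⊔ Submodule.span ℝ {y} := by
          refine lt_of_le_of_ne le_sup_left ?_
          intro h2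
          apply hysp
          rw [h2]
          exact (le_sup_right : _ ≤ Sp C q ⊔ Submodule.span ℝ {y})
            (Submodule.mem_span_singleton_self y)
        have h3 := Submodule.finrank_lt_finrank_of_lt h1
        unfold rk at hr
        omega
    have hg2 : g ∈ Sp C q ⊔ Submodule.span ℝ {y} := by
      rw [hsup]
      exact mem_sp hgF
    obtain ⟨v, hv, w, hw, hvw⟩ := Submodule.mem_sup.1 hg2
    obtain ⟨c, rfl⟩ := Submodule.mem_span_singleton.1 hw
    rcases lt_trichotomy c 0 with hc | hc | hc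
    · exfalso
      apply hyq
      have h1 : g + (-c) • y = v := by
        rw [← hvw, neg_smul]
        abel
      have hyc : (-c) • y ∈ C := hC.smul _ (by linarith) y hyC
      have h2 : v ∈ Fc C q := by
        refine of_sp hC hqC ?_ hv
        rw [← h1]
        exact hC.add _ hgC _ hyc
      rw [← h1] at h2
      exact smul_mem hC hqC (by linarith) (face hC hqC hgC hyc h2).2
    · rw [hc, zero_smul, add_zero] at hvw
      have h1 : g ∈ Fc C q := by
        refine of_sp hC hqC hgC ?_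
        rw [← hvw]
        exact hv
      have h2 := foot_zero hC hqC hgg h1
      refine ⟨r - g, ht, 0, zero_fc hC hyC, ?_⟩
      rw [h2]
      simp
    · have h1 : Foot C q (c • y) (c • y) := foot_smul hC hqC hc (foot_ex hC hqf hy hyq)
      have h2 : g = c • y := by
        refine foot_uniq hC hqC ?_ hgg h1
        rw [← hvw, add_sub_cancel_right]
        exact hv
      refine ⟨r - g, ht, c • y, smul_fc hC hyC hc.le (self hC hyC), ?_⟩
      rw [← h2, sub_add_cancel]

theorem pf_F5A (h : T_VEX) (h2 : T_SHR) (h3 : T_RKF) (h4 : T_XOU) (h5 : T_FIN) : T_F5A := by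
  intro V _ _ _ m K q y hq hy hyq hr
  have hC := K.cc
  have hqC := K.mem q hq
  have hyC := hy.1
  have hsC : q + y ∈ Cn m := hC.add q hqC y hyC
  have hqf := K.ftd q hq
  have hq4 := K.rk4 q hq
  have hqs : q ∈ Fc (Cn m) (q + y) := left_fc hC hqC hyC
  have hys : y ∈ Fc (Cn m) (q + y) := right_fc hC hqC hyC
  refine ⟨dsum_ex hC hqf hy hyq (by omega), ?_⟩
  have hns : ¬ Fc (Cn m) (q + y) ⊆ Mh m := fun h6 =>
    K.nsub q hq ((sub hC hsC hqs).trans h6)
  obtain ⟨p, hp, hps, hyp⟩ := h V m K (q + y) y hsC hns hy hys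
  have hpC := K.mem p hp
  have hp4 := K.rk4 p hp
  have hpq : p ∉ Fc (Cn m) q := fun h6 => hyq (tra hC hqC h6 hyp)
  have hqp : q ∉ Fc (Cn m) p := by
    intro h6
    exact hpq (of_rk hC hpC h6 (by omega))
  obtain ⟨a, haC, ha⟩ := h5 V (Cn m) p q hC hpC hqC
  have haa := (ha a).1 (self hC haC)
  have h6 := h3 V (Cn m) q p a hC hqf hpC haC (fun t h7 h8 => (ha t).2 ⟨h8, h7⟩)
  have hqpC : q + p ∈ Cn m := hC.add q hqC p hpC
  have h7 : rk (Cn m) (q + p) ≤ 5 := by
    rw [← hr]
    exact rk_mono hC hsC (add_fc hC hsC hqs hps)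
  have h8 : rk (Cn m) a < rk (Cn m) q := by
    refine rk_lt hC hqC haa.2 ?_
    intro h9
    exact hqp (tra hC hpC haa.1 h9)
  have ha3 : rk (Cn m) a = 3 := by omega
  have hqa : q ∉ Fc (Cn m) a := by
    intro h9
    have := rk_mono hC haC h9
    omega
  obtain ⟨z, hz, hzq, hza⟩ := h4 V (Cn m) (Fc (Cn m) a) q hC hqC (zero_fc hC haC)
    (fun u hu v hv => add_fc hC haC hu hv) hqa
  have hP := h2 V m K q p a z hq hp hpq haa.2 haa.1 ha3 hz hzq hza
  have hya : y ∉ Fc (Cn m) a := fun h9 => hyq (tra hC hqC haa.2 h9)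
  have hP2 := h2 V m K p q a y hp hq hqp haa.1 haa.2 ha3 hy hyp hya
  exact ⟨a, z, hP, K.congr p _ hp hP2.mem hP2.mem'⟩

end Pool.Agent.H93.KW.F5A
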