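import Pool.Agent.H61.KW.TB

open Topology Set
open Pool.Agent.H59 Pool.Agent.H64.LB Pool.Agent.H61.KV Pool.Agent.H61.KW

namespace Pool.Agent.H93.KW.F5B

/-- `Dsum` depends only on the face of the first summand -/
theorem dsum_congr {V : Type} [NormedAddCommGroup V] [NormedSpace ℝ V] [FiniteDimensional ℝ V]
    {C : Set V} {q q' y : V} (hC : IsCC C) (h : Dsum C q y) (h1 : q' ∈ Fc C q)
    (h2 : q ∈ Fc C q') : Dsum C q' y := by
  obtain ⟨hq, hy, h3, h4⟩ := h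
  have h5 := fc_eq hC hq h1 h2
  have h6 := sp_eq hC hq h1 h2
  refine ⟨mem_C h1, hy, ?_, ?_⟩
  · intro v hv
    rw [h6] at hv
    exact h3 v hv
  · intro r hr
    rw [fc_add_congr hC hq hy h1 h2 (self hC hy) (self hC hy)] at hr
    rw [h5]
    exact h4 r hr

theorem pf_F5B (h : T_F5A) (h2 : T_XOU) (h3 : T_DSA) : T_F5B := by
  intro V _ _ _ m K f hf hr5 hnf
  have hC := K.cc
  obtain ⟨q, hqf, hq⟩ := K.exi f hf hnf
  have hqC := K.mem q hq
  have hq4 := K.rk4 q hq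
  have hfq : f ∉ Fc (Cn m) q := by
    intro h4
    have := rk_mono hC hqC h4
    omega
  obtain ⟨y, hy, hyf, hyq⟩ := h2 V (Cn m) (Fc (Cn m) q) f hC hf (zero_fc hC hqC)
    (fun u hu v hv => add_fc hC hqC hu hv) hfq
  have hyC := hy.1
  have hs : q + y ∈ Fc (Cn m) f := add_fc hC hf hqf hyf
  have hsC := mem_C hs
  have h5 : 5 ≤ rk (Cn m) (q + y) := by
    have := rk_add_ex hC hqC hyC hyq
    omega
  have h6 : rk (Cn m) (q + y) ≤ rk (Cn m) f := rk_mono hC hf hs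
  have hfs : f ∈ Fc (Cn m) (q + y) := of_rk hC hf hs (by omega)
  obtain ⟨hD, a, z, hP, hE⟩ := h V m K q y hq hy hyq (by omega)
  have hD2 : Dsum (Cn m) (a + z) y := dsum_congr hC hD hP.mem hP.mem'
  obtain ⟨h7, h8, -⟩ := (h3 V (Cn m) a z y hC).1 hP.ds hD2
  have h9 : a + (z + y) = (a + z) + y := by abel
  have h10 := fc_add_congr hC hqC hyC hP.mem hP.mem' (self hC hyC) (self hC hyC)
  have h11 : Fc (Cn m) (q + y) = Fc (Cn m) f := fc_eq hC hf hs hfs
  have h12 : Fc (Cn m) (a + (z + y)) = Fc (Cn m) f := by rw [h9, h10, h11]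
  have haC : a + (z + y) ∈ Cn m := by
    rw [h9]
    exact hC.add _ (mem_C hP.mem) _ hyC
  refine ⟨a, z, y, hP.rk3, hP.ex, hy, h7, h8, ?_, ?_, K.congr q _ hq hP.mem hP.mem', hE⟩
  · rw [← h12]
    exact self hC haC
  · rw [h12]
    exact self hC hf

end Pool.Agent.H93.KW.F5B
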