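import Pool.Agent.H61.KW.TC

open Topology Set
open Pool.Agent.H59 Pool.Agent.H64.LB Pool.Agent.H61.KV Pool.Agent.H61.KW

namespace Pool.Agent.H93.KW.FNT

theorem pf_FNT (h : T_GNF) (h2 : T_EPT) (h3 : T_VEX) (h4 : T_FSF) (h5 : T_TOP) : T_FNT := by
  intro V _ _ _ m K hS hq0 e he
  classical
  have hC := K.cc
  -- normalisation
  have norm : ∀ y, Ex (Cn m) y →
      ∃ x, Ex (Cn m) x ∧ e x = 1 ∧ x ∈ Fc (Cn m) y ∧ y ∈ Fc (Cn m) x := by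
    intro y hy
    have h6 := he y hy.1 hy.2.1
    have h7 := ex_smul hC hy (inv_pos.2 h6)
    refine ⟨(e y)⁻¹ • y, h7, ?_, ?_, ?_⟩
    · rw [map_smul, smul_eq_mul, inv_mul_cancel₀ h6.ne']
    · exact smul_fc hC hy.1 (inv_pos.2 h6).le (self hC hy.1)
    · rw [fc_smul hC hy.1 (inv_pos.2 h6)]
      exact self hC hy.1
  have uniq : ∀ x y, Ex (Cn m) x → e x = 1 → Ex (Cn m) y → e y = 1 → y ∈ Fc (Cn m) x →
      y = x := by
    intro x y hx hx1 hy hy1 hyx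
    obtain ⟨c, hc, h6⟩ := ex_par hC hx hy hyx
    rw [h6, map_smul, hx1, smul_eq_mul, mul_one] at hy1
    rw [h6, hy1, one_smul]
  have mk : ∀ q, Ef m q → ∃ S : Finset V, S.card = 4 ∧
      ∀ x, x ∈ S ↔ (Ex (Cn m) x ∧ e x = 1 ∧ x ∈ Fc (Cn m) q) := by
    intro q hq
    obtain ⟨w, hw⟩ := hS q hq
    have hqC := K.mem q hq
    obtain ⟨-, -, -, h6, -, -⟩ := h V (Cn m) q 4 w hC hqC hw
    have hew : ∀ i, 0 < e (w i) := fun i => he _ (hw.2.1 i).1 (hw.2.1 i).2.1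
    refine ⟨Finset.univ.image (fun i => (e (w i))⁻¹ • w i), ?_, ?_⟩
    · rw [Finset.card_image_of_injective, Finset.card_univ, Fintype.card_fin]
      intro i j hij
      exact hw.1.eq_of_smul_apply_eq_smul_apply _ _ i j (inv_pos.2 (hew i)).ne' hij
    · intro x
      rw [Finset.mem_image]
      constructor
      · rintro ⟨i, -, rfl⟩
        refine ⟨ex_smul hC (hw.2.1 i) (inv_pos.2 (hew i)), ?_, ?_⟩
        · rw [map_smul, smul_eq_mul, inv_mul_cancel₀ (hew i).ne']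
        · exact smul_fc hC hqC (inv_pos.2 (hew i)).le (hw.2.2.1 i)
      · rintro ⟨hx, hx1, hxq⟩
        obtain ⟨i, hi⟩ := h6 x hx hxq
        obtain ⟨c, hc, h7⟩ := ex_par hC (hw.2.1 i) hx hi
        refine ⟨i, Finset.mem_univ i, ?_⟩
        have h8 : c * e (w i) = 1 := by rw [← smul_eq_mul, ← map_smul, ← h7, hx1]
        rw [h7, ← eq_inv_of_mul_eq_one_left h8]
  let F : Set (Finset V) :=
    {S | ∃ q, Ef m q ∧ ∀ x, x ∈ S ↔ (Ex (Cn m) x ∧ e x = 1 ∧ x ∈ Fc (Cn m) q)}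
  have hF : F.Finite := by
    apply h4 V F
    · rintro S ⟨q, hq, hSq⟩
      obtain ⟨S', hc, hS'⟩ := mk q hq
      have h6 : S = S' := by
        ext x
        rw [hSq, hS']
      rw [h6, hc]
    · rintro S ⟨q, hq, hSq⟩ S' ⟨q', hq', hSq'⟩
      rw [Finset.not_disjoint_iff]
      obtain ⟨x, hx, hxq, hxq'⟩ := K.meet q q' hq hq'
      obtain ⟨y, hy, hy1, hyx, -⟩ := norm x hx
      refine ⟨y, (hSq y).2 ⟨hy, hy1, tra hC (K.mem q hq) hxq hyx⟩,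
        (hSq' y).2 ⟨hy, hy1, tra hC (K.mem q' hq') hxq' hyx⟩⟩
    · rintro S ⟨q, hq, hSq⟩ x hx
      obtain ⟨hxE, hx1, hxq⟩ := (hSq x).1 hx
      obtain ⟨p, hp, hxp, hpq⟩ := h2 V m K q x hq hxE hxq
      obtain ⟨S', -, hS'⟩ := mk p hp
      refine ⟨S', ⟨p, hp, hS'⟩, ?_⟩
      intro y hy hy'
      obtain ⟨hyE, hy1, hyq⟩ := (hSq y).1 hy
      obtain ⟨-, -, hyp⟩ := (hS' y).1 hy'
      exact uniq x y hxE hx1 hyE hy1 (hpq y hyp hyq)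
  obtain ⟨q0, hq0⟩ := hq0
  obtain ⟨c, hcC, -, hc⟩ := h5 V (Cn m) hC K.span
  have hnc : ¬ Fc (Cn m) c ⊆ Mh m := by
    intro h6
    exact K.nsub q0 hq0 ((sub hC hcC (hc q0 (K.mem q0 hq0))).trans h6)
  refine Set.Finite.subset (Set.Finite.biUnion hF (fun S _ => S.finite_toSet)) ?_
  rintro x ⟨hx, hx1⟩
  obtain ⟨q, hq, -, hxq⟩ := h3 V m K c x hcC hnc hx (hc x hx.1)
  obtain ⟨S, -, hSq⟩ := mk q hq
  rw [Set.mem_iUnion₂]
  exact ⟨S, ⟨q, hq, hSq⟩, (hSq x).2 ⟨hx, hx1, hxq⟩⟩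

end Pool.Agent.H93.KW.FNT
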