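import Pool.Agent.H61.KW.TB

open Topology Set
open Pool.Agent.H59 Pool.Agent.H64.LB Pool.Agent.H61.KV Pool.Agent.H61.KW

namespace Pool.Agent.H93.KW.SCM

theorem pf_SCM (h2 : T_LDI) (h3 : T_XOU) (h4 : T_NCL) (h5 : T_COE) : T_SCM := by
  intro V _ _ _ m K q hq hS r hr hrq
  by_contra hO
  have hC := K.cc
  have hqC := K.mem q hq
  have hqf := K.ftd q hq
  have hq4 := K.rk4 q hq
  obtain ⟨x, hx, hxr, hxq⟩ := h3 V (Cn m) (Fc (Cn m) q) r hC hr (zero_fc hC hqC)
    (fun u hu v hv => add_fc hC hqC hu hv) hrq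
  have hxC := hx.1
  have hnO : ¬ Ov (Cn m) q x := by
    intro h6
    apply hO
    intro ξ h7 h8 h9
    exact h6 ξ h7 h8 (fun_zero h7 h9 (mem_sp hxr))
  have h8 : rk (Cn m) (x + q) < 9 := by
    rw [add_comm, ← K.fin]
    exact not_ov_rk hC hqC hxC hnO
  have hxf := foot_ex hC hqf hx hxq
  have hx0 : x + 0 = x := add_zero x
  -- two extreme rays
  have key : ∀ t t', Ex (Cn m) t → Ex (Cn m) t' → t ∈ Fc (Cn m) q → t' ∈ Fc (Cn m) q →
      t' ∉ Fc (Cn m) t → rk (Cn m) (x + t) + rk (Cn m) (x + t') ≤ 7 := by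
    intro t t' ht ht' htq htq' htt
    have h9 := h2 V (Cn m) q x q t t' 0 hC hqf hxC hxf (self hC hqC) htq htq' hC.zero (by
      intro u
      constructor
      · intro hu
        rw [fc_of_zero hC hu]
        exact ⟨zero_fc hC ht.1, zero_fc hC ht'.1⟩
      · rintro ⟨hu, hu'⟩
        have h10 : u = 0 := ex_meet hC ht.1 ht' htt hu' hu
        rw [h10]
        exact zero_fc hC hC.zero)
    rw [rk_zero hC, hx0, ex_rk hC hx, ex_rk hC ht, ex_rk hC ht'] at h9
    omega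
  obtain ⟨s, hs, hsM⟩ := h5 V m K q x hq (K.ex x hx) hx.2.1
  have hsE := hS s hs
  have hsC := hsE.1
  have hxs4 : 4 ≤ rk (Cn m) (x + s) := by
    by_contra h9
    exact hsM (K.low _ (hC.add x hxC s hsC) (by omega) (self hC (hC.add x hxC s hsC)))
  have hlim : ∀ s', Bd (Cn m) q s' → s' ∉ Fc (Cn m) s → x + s' ∈ Mh m := by
    intro s' hs' hss
    have hsE' := hS s' hs'
    have h9 := key s s' hsE hsE' hs.1 hs'.1 hss
    exact K.low _ (hC.add x hxC s' hsE'.1) (by omega) (self hC (hC.add x hxC s' hsE'.1))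
  apply hsM
  rw [← K.closed.closure_eq, Metric.mem_closure_iff]
  intro ε hε
  obtain ⟨s', hs', hss, hd⟩ := h4 V (Cn m) q s hC hqC (by omega) hS hs ε hε
  refine ⟨x + s', hlim s' hs' hss, ?_⟩
  rw [dist_comm, dist_add_left, dist_eq_norm]
  exact hd

end Pool.Agent.H93.KW.SCM
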